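import Pool.Agent.K3h43.GEN.Fin

/-! MP_ec2393_nt: the elements of depth one generate the double shuffle Lie algebra `dm` modulo its
elements with at least four (odd weight: at least five) letters `x₀` in each word. -/

set_option autoImplicit false

namespace Pool.Agent.Results.MP_ec2393_nt.Generation

open Pool.Agent.H777R4.DM

/-- The elements of `dm`, homogeneous of weight `N`, all of whose words contain at least `k`
letters `x₀`. -/
def Fil (N k : ℕ) : Submodule ℚ A where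
  carrier := {ψ | IsDM ψ ∧ ∀ u, co ψ u ≠ 0 → u.length = N ∧ k ≤ u.count 0}
  add_mem' := by
    rintro ψ φ ⟨h1, h2⟩ ⟨h3, h4⟩
    refine ⟨isDM_add h1 h3, fun u hu => ?_⟩
    rw [co_add] at hu
    by_cases h : co ψ u = 0
    · refine h4 u fun h' => hu ?_
      rw [h, h', add_zero]
    · exact h2 u h
  zero_mem' := ⟨isDM_zero, fun u hu => absurd (co_zero u) hu⟩
  smul_mem' := by
    rintro c ψ ⟨h1, h2⟩
    refine ⟨isDM_smul h1 c, fun u hu => h2 u fun h' => hu ?_⟩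
    rw [co_smul, h', mul_zero]

/-- `L` is a Lie subalgebra of `dm` (a subspace of `dm` closed under the Ihara bracket), and for each
odd `k ≥ 3` the element `σ k ∈ L` is homogeneous of weight `k` and of depth one: its coefficient at
`x₀^{k-1} x₁` is not zero. -/
structure DepthOne (L : Submodule ℚ A) (σ : ℕ → A) : Prop where
  /-- `L` is contained in `dm`. -/
  dm : ∀ ψ ∈ L, IsDM ψ
  /-- `L` is closed under the Ihara bracket. -/
  bracket : ∀ ψ ∈ L, ∀ φ ∈ L, ihara ψ φ ∈ L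
  /-- `σ k` lies in `L`. -/
  mem : ∀ k, Odd k → 3 ≤ k → σ k ∈ L
  /-- `σ k` is homogeneous of weight `k`. -/
  weight : ∀ k, Odd k → 3 ≤ k → ∀ u, co (σ k) u ≠ 0 → u.length = k
  /-- The coefficient of `σ k` at `x₀^{k-1} x₁` is not zero. -/
  depth : ∀ k, Odd k → 3 ≤ k → co (σ k) (List.replicate (k - 1) 0 ++ [1]) ≠ 0

/-- Let `L` be a Lie subalgebra of `dm` with elements `σ₃, σ₅, σ₇, …` of depth one, and let `dm_N` be
the part of weight `N` of `dm`.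

If `N` is even, `dm_N` is spanned by the brackets `{σ_a, σ_b}` with `a + b = N` (`a, b ≥ 3` odd) and
by its elements with at least four letters `x₀` in each word.

If `N` is odd, `dm_N` is spanned by `σ_N` (if `N ≥ 3`), the brackets `{σ_a, {σ_b, σ_c}}` with
`a + b + c = N` (`a, b, c ≥ 3` odd) and its elements with at least five letters `x₀` in each word. -/
theorem result (L : Submodule ℚ A) (σ : ℕ → A) (h : DepthOne L σ) (N : ℕ) :
    (Even N → Fil N 0 = Submodule.span ℚ {ψ | ∃ a b : ℕ, Odd a ∧ Odd b ∧ 3 ≤ a ∧ 3 ≤ b ∧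
      a + b = N ∧ ψ = ihara (σ a) (σ b)} ⊔ Fil N 4) ∧
    (Odd N → Fil N 0 = Submodule.span ℚ ({ψ | 3 ≤ N ∧ ψ = σ N} ∪ {ψ | ∃ a b c : ℕ, Odd a ∧ Odd b ∧
      Odd c ∧ 3 ≤ a ∧ 3 ≤ b ∧ 3 ≤ c ∧ a + b + c = N ∧ ψ = ihara (σ a) (ihara (σ b) (σ c))}) ⊔
      Fil N 5) := by
  have hF : K3h43.GEN.Fam L σ := ⟨h.dm, h.bracket, h.mem, h.weight, h.depth⟩
  have hle : ∀ k l : ℕ, k ≤ l → Fil N l ≤ Fil N k := by
    rintro k l hkl ψ ⟨h1, h2⟩
    exact ⟨h1, fun u hu => ⟨(h2 u hu).1, hkl.trans (h2 u hu).2⟩⟩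
  -- differences of elements of `dm_N`
  have hsub : ∀ (k : ℕ) (ψ φ : A), ψ ∈ Fil N 0 → φ ∈ Fil N 0 →
      (∀ u, co (ψ - φ) u ≠ 0 → k ≤ u.count 0) → ψ - φ ∈ Fil N k := by
    intro k ψ φ hψ hφ hk
    have h1 := (Fil N 0).sub_mem hψ hφ
    exact ⟨h1.1, fun u hu => ⟨(h1.2 u hu).1, hk u hu⟩⟩
  constructor
  · intro hN
    have hsp : Submodule.span ℚ {ψ | ∃ a b : ℕ, Odd a ∧ Odd b ∧ 3 ≤ a ∧ 3 ≤ b ∧
        a + b = N ∧ ψ = ihara (σ a) (σ b)} ≤ Fil N 0 := by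
      rw [Submodule.span_le]
      rintro _ ⟨a, b, ha, hb, a3, b3, hab, rfl⟩
      refine ⟨h.dm _ (h.bracket _ (h.mem _ ha a3) _ (h.mem _ hb b3)), fun u hu => ⟨?_, by omega⟩⟩
      rw [← hab]
      exact K3h93.GEN.t_IhLen _ _ _ _ (h.weight _ ha a3) (h.weight _ hb b3) u hu
    refine le_antisymm ?_ (sup_le hsp (hle _ _ (by omega)))
    intro ψ hψ
    obtain ⟨φ, hφ, h4⟩ := K3h43.GEN.even_core hF hN hψ.1 (fun u hu => (hψ.2 u hu).1)
    rw [show ψ = φ + (ψ - φ) by abel]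
    exact Submodule.add_mem_sup hφ (hsub 4 ψ φ hψ (hsp hφ) h4)
  · intro hN
    set T : Set A := {ψ | 3 ≤ N ∧ ψ = σ N} ∪ {ψ | ∃ a b c : ℕ, Odd a ∧ Odd b ∧
      Odd c ∧ 3 ≤ a ∧ 3 ≤ b ∧ 3 ≤ c ∧ a + b + c = N ∧ ψ = ihara (σ a) (ihara (σ b) (σ c))} with hT
    have hsp : Submodule.span ℚ T ≤ Fil N 0 := by
      rw [Submodule.span_le]
      rintro ψ (⟨h3, rfl⟩ | ⟨a, b, c, ha, hb, hc, a3, b3, c3, habc, rfl⟩)
      · exact ⟨h.dm _ (h.mem _ hN h3), fun u hu => ⟨h.weight _ hN h3 u hu, by omega⟩⟩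
      · refine ⟨h.dm _ (h.bracket _ (h.mem _ ha a3) _ (h.bracket _ (h.mem _ hb b3) _
          (h.mem _ hc c3))), fun u hu => ⟨?_, by omega⟩⟩
        rw [← habc, add_assoc]
        exact K3h93.GEN.t_IhLen _ _ _ _ (h.weight _ ha a3)
          (K3h93.GEN.t_IhLen _ _ _ _ (h.weight _ hb b3) (h.weight _ hc c3)) u hu
    refine le_antisymm ?_ (sup_le hsp (hle _ _ (by omega)))
    intro ψ hψ
    -- remove the part of depth one
    obtain ⟨φ1, hφ1, h3⟩ : ∃ φ1 ∈ Submodule.span ℚ T, ∀ u, co (ψ - φ1) u ≠ 0 → 3 ≤ u.count 0 := by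
      rcases Nat.lt_or_ge N 3 with h3 | h3
      · refine ⟨0, Submodule.zero_mem _, fun u hu => ?_⟩
        rw [sub_zero] at hu
        have := (taskSmall_proof taskTwoB Pool.Agent.H352.DSH.taskTwoC ψ hψ.1 u hu).1
        have := (hψ.2 u hu).1
        omega
      · obtain ⟨φ1, a1, -, -, a4⟩ := Y759.DS.odd_sum (Submodule.span ℚ T) hN h3
          ⟨σ N, Submodule.subset_span (Or.inl ⟨h3, rfl⟩), h.dm _ (h.mem _ hN h3), h.weight _ hN h3,
            h.depth _ hN h3⟩ hψ.1 (fun u hu => (hψ.2 u hu).1)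
        exact ⟨φ1, a1, a4⟩
    have h4 := hsub 3 ψ φ1 hψ (hsp hφ1) h3
    obtain ⟨φ2, hφ2, h5⟩ := K3h43.GEN.odd_core hF hN h4.1 (fun u hu => (h4.2 u hu).1)
      (fun u hu => (h4.2 u hu).2)
    have hφ2' : φ2 ∈ Submodule.span ℚ T :=
      Submodule.span_mono (fun x hx => Or.inr hx) hφ2
    rw [show ψ = (φ1 + φ2) + (ψ - φ1 - φ2) by abel]
    exact Submodule.add_mem_sup ((Submodule.span ℚ T).add_mem hφ1 hφ2')
      (hsub 5 (ψ - φ1) φ2 (hle _ _ (by omega) h4) (hsp hφ2') h5)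

end Pool.Agent.Results.MP_ec2393_nt.Generation
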