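import Pool.Agent.K3h43.DSL.All

/-! MP_ec2393_nt: the layers 3 and 4 of the filtration of the double shuffle Lie algebra `dm` by the
number of letters `x₀` in odd weights: the third layer is not larger than that of the free Lie
algebra on `s₃, s₅, s₇, …` and the fourth layer vanishes. -/

set_option autoImplicit false

namespace Pool.Agent.Results.MP_ec2393_nt.OddWeightLayers

open Pool.Agent.H777R4.DM

/-- The elements of `dm`, homogeneous of weight `N`, all of whose words contain at least `k`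
letters `x₀`. -/
def Fil (N k : ℕ) : Submodule ℚ A where
  carrier := {ψ | IsDM ψ ∧ ∀ u, co ψ u ≠ 0 → u.length = N ∧ k ≤ u.count 0}
  add_mem' := by
    rintro ψ φ ⟨h1, h2⟩ ⟨h3, h4⟩
    refine ⟨isDM_add h1 h3, fun u hu => ?_⟩
    rw [co_add] at hu
    by_cases h : co ψ u = 0
    · refine h4 u fun h' => hu ?_
      rw [h, h', add_zero]
    · exact h2 u h
  zero_mem' := ⟨isDM_zero, fun u hu => absurd (co_zero u) hu⟩
  smul_mem' := by
    rintro c ψ ⟨h1, h2⟩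
    refine ⟨isDM_smul h1 c, fun u hu => h2 u fun h' => hu ?_⟩
    rw [co_smul, h', mul_zero]

/-- Let `N` be odd and let `dm_N` be the part of weight `N` of `dm`.

An element of `dm_N` with at least four letters `x₀` in each of its words has at least five letters
`x₀` in each of its words.

The elements of `dm_N` with at least three letters `x₀` in each word, modulo those with at least
five, form a space of dimension at most `⌊((N-3)²-1)/48⌋` (`0` if `N ≤ 3`), and `dm_N` modulo the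
elements with at least five letters `x₀` in each word has dimension at most
`1 + ⌊((N-3)²-1)/48⌋`. -/
theorem result : ∀ N : ℕ, Odd N →
    Fil N 4 = Fil N 5 ∧
    Module.Finite ℚ (Fil N 3 ⧸ (Fil N 5).submoduleOf (Fil N 3)) ∧
    Module.finrank ℚ (Fil N 3 ⧸ (Fil N 5).submoduleOf (Fil N 3)) ≤ ((N - 3) ^ 2 - 1) / 48 ∧
    Module.Finite ℚ (Fil N 0 ⧸ (Fil N 5).submoduleOf (Fil N 0)) ∧
    Module.finrank ℚ (Fil N 0 ⧸ (Fil N 5).submoduleOf (Fil N 0)) ≤ 1 + ((N - 3) ^ 2 - 1) / 48 := by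
  intro N hN
  obtain ⟨hV, hM, hZ⟩ := K3h43.DSL.all
  have h45 : ∀ ψ ∈ Fil N 4, ψ ∈ Fil N 5 := by
    rintro ψ ⟨h1, h2⟩
    exact ⟨h1, fun u hu => ⟨(h2 u hu).1, hZ ψ N hN h1 (fun v hv => (h2 v hv).1)
      (fun v hv => (h2 v hv).2) u hu⟩⟩
  have h54 : ∀ ψ ∈ Fil N 5, ψ ∈ Fil N 4 := by
    rintro ψ ⟨h1, h2⟩
    exact ⟨h1, fun u hu => ⟨(h2 u hu).1, by have := (h2 u hu).2; omega⟩⟩
  have key : ∀ ψ ∈ Fil N 0, co ψ (List.replicate (N - 1) 0 ++ [1]) = 0 → ψ ∈ Fil N 3 := by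
    rintro ψ ⟨h1, h2⟩ h3
    exact ⟨h1, fun u hu => ⟨(h2 u hu).1, Y759.QS.filt_odd h1 (fun v hv => (h2 v hv).1) hN h3 u hu⟩⟩
  -- the map from `Fil N 3`
  have T : ∃ (W : Submodule ℚ K3h43.DSL.R) (T : Fil N 3 →ₗ[ℚ] W), Module.Finite ℚ W ∧
      Module.finrank ℚ W ≤ ((N - 3) ^ 2 - 1) / 48 ∧ ∀ ψ, T ψ = 0 → (ψ : A) ∈ Fil N 5 := by
    rcases Nat.lt_or_ge N 3 with h | h
    · refine ⟨⊥, 0, inferInstance, by simp, ?_⟩
      rintro ⟨ψ, h1, h2⟩ -
      refine ⟨h1, fun u hu => ?_⟩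
      have h3 := h2 u hu
      have h4 : u.count 0 ≤ u.length := List.count_le_length
      omega
    · obtain ⟨F, hF⟩ := hM N hN h
      obtain ⟨v1, v2⟩ := hV (N - 3) (Nat.Odd.sub_odd hN (by decide))
      refine ⟨K3h43.DSL.V (N - 3), LinearMap.codRestrict _ (F ∘ₗ (Fil N 3).subtype)
        (fun ψ => (hF ψ ψ.2.1 (fun v hv => (ψ.2.2 v hv).1) (fun v hv => (ψ.2.2 v hv).2)).1),
        v1, v2, ?_⟩
      rintro ⟨ψ, h1, h2⟩ h3
      have h4 : F ψ = 0 := congrArg Subtype.val h3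
      have h5 := (hF ψ h1 (fun v hv => (h2 v hv).1) (fun v hv => (h2 v hv).2)).2 h4
      exact h45 ψ ⟨h1, fun u hu => ⟨(h2 u hu).1, h5 u hu⟩⟩
  obtain ⟨W, T, w1, w2, w3⟩ := T
  obtain ⟨a1, a2⟩ := K3h43.DSL.quot_map (Fil N 3) (Fil N 5) T w3
  obtain ⟨b1, b2⟩ := K3h43.DSL.quot_two (Fil N 0) (Fil N 3) (Fil N 5)
    (K3h43.DSL.coL (List.replicate (N - 1) 0 ++ [1])) T key w3
  exact ⟨le_antisymm h45 h54, a1, a2.trans w2, b1, b2.trans (by omega)⟩

end Pool.Agent.Results.MP_ec2393_nt.OddWeightLayers
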